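import Mathlib
import Pool.Agent.L0h42.EG.F1

/-!
# Near almost every integer there are `(a, 0)`-representable numbers, also in clusters with a common `a`-prime

For `b = 0`: (1) for every `ε > 0` there is a `K`, the same for all `a`, such that for all but `ε X` of the `n ≤ X` one
of the integers in `[n, n + K log log log n]` is representable. (2) For every `m` there are `B` and `C`, the same for all
`a`, such that for all but `o(X)` of the `n ≤ X` the interval `[n, n + (log log log n) ^ B]` contains an interval of
length `C` with at least `m` integers which are representable with one and the same `a`-prime.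

The proof uses no information on the `a`-primes besides the lower bound `c x / (log x) ^ (a + 1)` for their number: it
applies to every set `S` with at least `x / (log x) ^ A` elements up to `x`. The weights of Maynard and Tao are
summed over the points `n + u - s`, `u ≤ U`, `s ∈ S`; the primes are replaced by their sieve model with the
Fourier transform (twisted Bombieri-Vinogradov theorem), and the sum over the model has a small variance, as
the singular series has the mean value one in intervals of length `U` up to a sparse set of differences `s - s'`.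
-/

set_option autoImplicit false

open Finset Filter

namespace Pool.Agent.Results.MP_778b46_nt.AlmostAllWindows

/-- The `x`-th `a`-prime: the `(a + 1)`-fold iterate of `k ↦ k`-th prime, applied to `x`. -/
noncomputable def ip (a x : ℕ) : ℕ := Nat.iterate (fun k : ℕ => Nat.nth Nat.Prime (k - 1)) (a + 1) x

/-- `2 n` is the sum of the `x`-th `a`-prime and of a different prime (a `0`-prime). -/
def RepWith (a x n : ℕ) : Prop := ∃ y : ℕ, 0 < y ∧ ip a x ≠ ip 0 y ∧ ip a x + ip 0 y = 2 * n

open Classical in
/-- The integers `n' ∈ [t, t + C]` for which `2 n'` is the sum of the `x`-th `a`-prime and of a different prime. -/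
noncomputable def window (a x C t : ℕ) : Finset ℕ := (Icc t (t + C)).filter (fun n' => RepWith a x n')

lemma rep_of (a u n : ℕ) (hu : Pool.Agent.L0h42.EG.OI a u) (h : Pool.Agent.L0h42.EG.RepBy u n) (x : ℕ) (hx : ip a x = u) :
    RepWith a x n := by
  obtain ⟨q, hq, h1, h2⟩ := h
  have h3 := Pool.Agent.TH665.GP.ff_pi hq
  refine ⟨Nat.primeCounting q, ?_, ?_, ?_⟩
  · have h1 : Nat.primeCounting q = Nat.count Nat.Prime q + 1 := by
      rw [Nat.primeCounting, Nat.primeCounting', Nat.count_succ, if_pos hq]
    omega
  · rw [hx]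
    change u ≠ Pool.Agent.TH665.GP.ff (Nat.primeCounting q)
    rw [h3]
    exact h1
  · rw [hx]
    change u + Pool.Agent.TH665.GP.ff (Nat.primeCounting q) = 2 * n
    rw [h3]
    exact h2

open Classical in
/-- (1) For every `ε > 0` there is a `K` such that for every `a` and every large `X`, for all but at most `ε X` of the
`n ≤ X` there is an integer `n'` with `n ≤ n' ≤ n + K log log log n` such that `2 n'` is `(a, 0)`-representable.
(2) For every `m` there are `B` and `C` such that for every `a`, every `ε > 0` and every large `X`, for all but at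
most `ε X` of the `n ≤ X` there are an `a`-prime `ip a x` and a `t` with `n ≤ t`, `t + C ≤ n + (log log log n) ^ B` such
that for at least `m` of the integers `n' ∈ [t, t + C]` the number `2 n'` is the sum of `ip a x` and of a different
prime. -/
theorem result :
    (∀ ε : ℝ, 0 < ε → ∃ K : ℕ, ∀ a : ℕ, ∀ᶠ X : ℕ in atTop,
      (((Icc 1 X).filter (fun n : ℕ => ¬ ∃ x n' : ℕ, 0 < x ∧ n ≤ n' ∧
        (n' : ℝ) ≤ n + K * Real.log (Real.log (Real.log n)) ∧ RepWith a x n')).card : ℝ) ≤ ε * X) ∧
    (∀ m : ℕ, ∃ B C : ℕ, ∀ a : ℕ, ∀ ε : ℝ, 0 < ε → ∀ᶠ X : ℕ in atTop,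
      (((Icc 1 X).filter (fun n : ℕ => ¬ ∃ x t : ℕ, 0 < x ∧ n ≤ t ∧
        ((t + C : ℕ) : ℝ) ≤ n + Real.log (Real.log (Real.log n)) ^ B ∧ m ≤ (window a x C t).card)).card : ℝ) ≤ ε * X) := by
  constructor
  · intro ε hε
    obtain ⟨K, hK⟩ := Pool.Agent.L0h42.EG.ip_one ε hε
    refine ⟨K, fun a => ?_⟩
    obtain ⟨X1, h1⟩ := hK a
    filter_upwards [eventually_ge_atTop X1] with X hX
    refine le_trans (Nat.cast_le.2 (card_le_card ?_)) (h1 X hX)
    intro n hn
    rw [mem_filter] at hn ⊢
    refine ⟨hn.1, fun hcon => hn.2 ?_⟩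
    obtain ⟨u, n', hu, h2, h3, h4⟩ := hcon
    obtain ⟨x, hx, hx2⟩ := Pool.Agent.TH665.GP.exists_index hu.1
    exact ⟨x, n', hx, h2, h3, rep_of a u n' hu h4 x hx2⟩
  · intro m
    obtain ⟨B, C, hBC⟩ := Pool.Agent.L0h42.EG.ip_clusters (m + 1) (by omega)
    refine ⟨B, C, fun a ε hε => ?_⟩
    obtain ⟨X1, h1⟩ := hBC a ε hε
    filter_upwards [eventually_ge_atTop X1] with X hX
    refine le_trans (Nat.cast_le.2 (card_le_card ?_)) (h1 X hX)
    intro n hn
    rw [mem_filter] at hn ⊢
    refine ⟨hn.1, fun hcon => hn.2 ?_⟩
    obtain ⟨u, t, hu, h2, h3, h4⟩ := hcon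
    obtain ⟨x, hx, hx2⟩ := Pool.Agent.TH665.GP.exists_index hu.1
    refine ⟨x, t, hx, h2, by push_cast; exact h3, ?_⟩
    refine le_trans (le_trans (Nat.le_succ m) h4) (card_le_card ?_)
    intro n' hn'
    rw [mem_filter] at hn'
    unfold window
    rw [mem_filter]
    exact ⟨hn'.1, rep_of a u n' hu hn'.2 x hx2⟩

end Pool.Agent.Results.MP_778b46_nt.AlmostAllWindows
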