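import Mathlib
import Pool.Agent.L0h76.WP.Fin

/-!
# All pairs `(a, b)`: near a positive proportion of the integers there are `(a, b)`-representable numbers

For every `b` there is an `E` such that for every `a` and every `F` a positive proportion of the integers `n ≤ x` have the
property: some `n'` with `n ≤ n' ≤ n + (log log n) ^ E` is `(a, b)`-representable, and `2 n'` even has at least
`(log n) ^ F` representations as a sum of an `a`-prime and a different `b`-prime, with `b`-primes which are at most
`(log n) ^ G`.

Proof: pairs of `a`-primes up to `x` at a distance of at most `Y = (log x) ^ e` and pairs of `b`-primes up to `Y` at a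
distance of at most `w = (log Y) ^ e'` have the right order of magnitude (library: `TT_le`). The number of the pairs
(`a`-prime, `b`-prime up to `Y`) whose sum lies in a block of length `w` therefore has a second moment of the
right order: for a fixed difference of the `a`-primes two translates of the set of the `b`-primes meet the same
block at most as often as the set meets itself (Cauchy-Schwarz).
-/

set_option autoImplicit false

open Finset Filter

namespace Pool.Agent.Results.MP_778b46_nt.ProportionOfWindows

/-- The `x`-th `a`-prime: the `(a + 1)`-fold iterate of `k ↦ k`-th prime, applied to `x`. -/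
noncomputable def ip (a x : ℕ) : ℕ := Nat.iterate (fun k : ℕ => Nat.nth Nat.Prime (k - 1)) (a + 1) x

/-- `R` is a set of pairs `(x, y)` of positive integers for which `2 n` is the sum of the `x`-th `a`-prime and of the
`y`-th `b`-prime, these two primes are different, and the `b`-prime is at most `B`. -/
def Reps (a b n : ℕ) (B : ℝ) (R : Finset (ℕ × ℕ)) : Prop :=
  ∀ z ∈ R, 0 < z.1 ∧ 0 < z.2 ∧ ip a z.1 ≠ ip b z.2 ∧ ip a z.1 + ip b z.2 = 2 * n ∧
    (ip b z.2 : ℝ) ≤ B

open Classical in
/-- **Theorem.** For every `b` there is an `E` such that for all `a` and `F` there are `G` and `c > 0` such that for all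
large `x` at least `c x` of the `n ≤ x` have the property: there is an `n'` with `n ≤ n' ≤ n + (log log n) ^ E` for which
`2 n'` has at least `(log n) ^ F` representations as a sum of an `a`-prime and a different `b`-prime, with the
`b`-prime at most `(log n) ^ G`. -/
theorem result (b : ℕ) : ∃ E : ℕ, ∀ a F : ℕ, ∃ (G : ℕ) (c : ℝ), 0 < c ∧ ∀ᶠ x : ℕ in atTop,
    c * x ≤ (((Icc 1 x).filter (fun n : ℕ => ∃ n' : ℕ, n ≤ n' ∧
      (n' : ℝ) ≤ n + Real.log (Real.log n) ^ E ∧
      ∃ R : Finset (ℕ × ℕ), Real.log n ^ F ≤ R.card ∧ Reps a b n' (Real.log n ^ G) R)).card : ℝ) := by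
  obtain ⟨E, hE⟩ := Pool.Agent.L0h76.WP.main b
  refine ⟨E, fun a F => ?_⟩
  obtain ⟨G, c, hc, h⟩ := hE a F
  refine ⟨G, c, hc, ?_⟩
  filter_upwards [h] with x hx
  obtain ⟨T, h1, h2, h3⟩ := hx
  refine h2.trans (Nat.cast_le.2 (card_le_card ?_))
  intro n hn
  obtain ⟨n', h4, h5, R, h6, h7⟩ := h3 n hn
  exact mem_filter.2 ⟨h1 hn, n', h4, h5, R, h6, h7⟩

end Pool.Agent.Results.MP_778b46_nt.ProportionOfWindows
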